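import Mathlib

/-!
# Graphs whose coloring number skips no value downwards

Finite coloring number bounds, phrased with `encard`, and the key step: if no subgraph of `G`
realises the value `k + 1`, then a bound `k + 2` improves to `k`.
-/

namespace Q124.ColNum

open Set

variable {V : Type*}

/-- The set of smaller neighbours of `x` in the order `r`. -/
def back (r : V → V → Prop) (G : SimpleGraph V) (x : V) : Set V := {y | r y x ∧ G.Adj x y}

/-- `G` has coloring number at most `k`, `k` finite. -/
def ColLE (G : SimpleGraph V) (k : ℕ) : Prop :=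
  ∃ r : V → V → Prop, IsWellOrder V r ∧ ∀ x, (back r G x).encard < k

theorem back_mono {r : V → V → Prop} {G H : SimpleGraph V} (h : G ≤ H) (x : V) :
    back r G x ⊆ back r H x := fun _ hy => ⟨hy.1, h hy.2⟩

/-- Adding a matching raises the coloring number by at most one. -/
theorem colLE_add_matching {G H : SimpleGraph V} {k : ℕ} (M : V → V → Prop)
    (hM : ∀ x y z, M x y → M x z → y = z)
    (hH : ∀ x y, H.Adj x y → G.Adj x y ∨ M x y) (hG : ColLE G k) : ColLE H (k + 1) := by
  obtain ⟨r, hr, hb⟩ := hG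
  refine ⟨r, hr, fun x => ?_⟩
  have hsub : back r H x ⊆ back r G x ∪ {y | M x y} := by
    rintro y ⟨h1, h2⟩
    rcases hH x y h2 with h | h
    · exact Or.inl ⟨h1, h⟩
    · exact Or.inr h
  have hone : ({y | M x y} : Set V).encard ≤ 1 := by
    rw [Set.encard_le_one_iff]
    intro a b ha hb
    exact hM x a b ha hb
  calc (back r H x).encard ≤ (back r G x ∪ {y | M x y}).encard := encard_le_encard hsub
    _ ≤ (back r G x).encard + ({y | M x y} : Set V).encard := encard_union_le _ _
    _ < ((k + 1 : ℕ) : ℕ∞) := by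
      have h1 := hb x
      have h2 : (back r G x).encard + 1 ≤ k := by
        exact Order.add_one_le_of_lt h1
      have h3 : (back r G x).encard + ({y | M x y} : Set V).encard ≤ k :=
        (add_le_add_right hone _).trans h2
      refine lt_of_le_of_lt h3 ?_
      exact_mod_cast Nat.lt_succ_self k

/-- Deleting one back edge at every saturated vertex lowers the bound by one. -/
theorem colLE_delete {G : SimpleGraph V} {k : ℕ} {r : V → V → Prop} [IsWellOrder V r]
    (hb : ∀ x, (back r G x).encard < ((k + 2 : ℕ) : ℕ∞)) (f : V → V)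
    (hf : ∀ x, (back r G x).encard = ((k + 1 : ℕ) : ℕ∞) → f x ∈ back r G x) (H : SimpleGraph V)
    (hHG : H ≤ G)
    (hH : ∀ x, (back r G x).encard = ((k + 1 : ℕ) : ℕ∞) → ¬ H.Adj x (f x)) : ColLE H (k + 1) := by
  refine ⟨r, inferInstance, fun x => ?_⟩
  by_cases hx : (back r G x).encard = ((k + 1 : ℕ) : ℕ∞)
  · have hsub : back r H x ⊂ back r G x := by
      refine ssubset_of_subset_of_ne (back_mono hHG x) (fun h => ?_)
      have h1 := hf x hx
      rw [← h] at h1
      exact hH x hx h1.2
    have hfin : (back r G x).Finite := by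
      rw [← encard_lt_top_iff, hx]; exact ENat.natCast_lt_top _
    rw [← hx]
    exact (hfin.subset hsub.subset).encard_lt_encard hsub
  · have h1 : (back r G x).encard ≤ ((k + 1 : ℕ) : ℕ∞) := by
      have := hb x
      rw [show ((k + 2 : ℕ) : ℕ∞) = ((k + 1 : ℕ) : ℕ∞) + 1 by push_cast; ring] at this
      exact Order.le_of_lt_add_one this
    exact lt_of_le_of_lt (encard_le_encard (back_mono hHG x)) (lt_of_le_of_ne h1 hx)

/-- A choice of labels below `k` that is injective on small fibres. -/
theorem exists_label {A : Set V} (g : V → V) (k : ℕ)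
    (hfib : ∀ u, ({x | x ∈ A ∧ g x = u} : Set V).encard < k) :
    ∃ s : V → ℕ, (∀ x ∈ A, s x < k) ∧
      ∀ x ∈ A, ∀ y ∈ A, g x = g y → s x = s y → x = y := by
  classical
  have h : ∀ u, ∃ s : V → ℕ, (∀ x, x ∈ A → g x = u → s x < k) ∧
      ∀ x, x ∈ A → g x = u → ∀ y, y ∈ A → g y = u → s x = s y → x = y := by
    intro u
    have hfin : ({x | x ∈ A ∧ g x = u} : Set V).Finite := by
      rw [← encard_lt_top_iff]; exact (hfib u).trans (ENat.natCast_lt_top _)
    have hcard : hfin.toFinset.card < k := by
      have := hfib u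
      rw [hfin.encard_eq_coe_toFinset_card] at this
      exact_mod_cast this
    let e := hfin.toFinset.equivFin
    refine ⟨fun x => if hx : x ∈ hfin.toFinset then (e ⟨x, hx⟩).val else 0, ?_, ?_⟩
    · intro x hx hgx
      have hm : x ∈ hfin.toFinset := by simp [hx, hgx]
      simp only [hm, dif_pos]
      exact lt_trans (e ⟨x, hm⟩).isLt hcard
    · intro x hx hgx y hy hgy hs
      have hm : x ∈ hfin.toFinset := by simp [hx, hgx]
      have hm' : y ∈ hfin.toFinset := by simp [hy, hgy]
      simp only [hm, hm', dif_pos] at hs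
      have := e.injective (Fin.ext hs)
      exact congrArg Subtype.val this
  choose s hs1 hs2 using h
  refine ⟨fun x => s (g x) x, fun x hx => hs1 (g x) x hx rfl, ?_⟩
  intro x hx y hy hg hs
  simp only at hs
  rw [← hg] at hs
  exact hs2 (g x) x hx rfl y hy hg.symm hs

/-- **Key step.** -/
theorem key {G : SimpleGraph V} {k : ℕ} (hyp : ∀ H ≤ G, ColLE H (k + 1) → ColLE H k)
    (hG : ColLE G (k + 2)) : ColLE G k := by
  classical
  obtain ⟨r, hr, hb⟩ := hG
  let A : Set V := {x | (back r G x).encard = ((k + 1 : ℕ) : ℕ∞)}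
  -- first choice of back edges
  have hf : ∀ x, ∃ y, x ∈ A → y ∈ back r G x := by
    intro x
    by_cases hx : x ∈ A
    · have hne : (back r G x).Nonempty := by
        rw [← Set.encard_pos]
        have : (back r G x).encard = ((k + 1 : ℕ) : ℕ∞) := hx
        rw [this]
        exact_mod_cast Nat.succ_pos k
      exact ⟨hne.some, fun _ => hne.some_mem⟩
    · exact ⟨x, fun h => absurd h hx⟩
  choose f hf using hf
  let G₁ : SimpleGraph V := G.deleteEdges {e | ∃ x ∈ A, e = s(x, f x)}
  have hG₁ : ColLE G₁ k := by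
    apply hyp _ (SimpleGraph.deleteEdges_le _)
    refine colLE_delete hb f (fun x hx => hf x hx) G₁ (SimpleGraph.deleteEdges_le _) ?_
    intro x hx h
    rw [SimpleGraph.deleteEdges_adj] at h
    exact h.2 ⟨x, hx, rfl⟩
  obtain ⟨r', hr', hb'⟩ := hG₁
  -- second choice
  have hg : ∀ x, ∃ y, x ∈ A → y ∈ back r G x ∧ G₁.Adj x y ∧ r' x y := by
    intro x
    by_cases hx : x ∈ A
    · by_contra hcon
      push Not at hcon
      have hall : ∀ y, y ∈ back r G x → G₁.Adj x y → ¬ r' x y := fun y h1 h2 =>
        (hcon y).2 h1 h2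
      have hsub : back r G x \ {f x} ⊆ back r' G₁ x := by
        rintro y ⟨hy, hyf⟩
        have hadj : G₁.Adj x y := by
          rw [SimpleGraph.deleteEdges_adj]
          refine ⟨hy.2, ?_⟩
          rintro ⟨z, hz, hzz⟩
          rw [Sym2.eq_iff] at hzz
          rcases hzz with ⟨h1, h2⟩ | ⟨h1, h2⟩
          · exact hyf (by rw [h2, ← h1]; rfl)
          · have h3 := (hf z hz).1
            rw [← h1, ← h2] at h3
            exact (asymm h3 hy.1).elim
        refine ⟨?_, hadj⟩
        rcases trichotomous_of r' y x with h | h | h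
        · exact h
        · exact absurd h.symm (G.ne_of_adj hy.2)
        · exact absurd h (hall y hy hadj)
      have h1 : ((k : ℕ) : ℕ∞) ≤ (back r' G₁ x).encard := by
        have h2 : (back r G x \ {f x}).encard + 1 = (back r G x).encard :=
          encard_sdiff_singleton_add_one (hf x hx)
        have h3 : (back r G x).encard = ((k + 1 : ℕ) : ℕ∞) := hx
        rw [h3] at h2
        have h4 : (back r G x \ {f x}).encard = ((k : ℕ) : ℕ∞) := by
          push_cast at h2
          have hinj := ENat.add_left_injective_of_ne_top (n := 1) ENat.one_ne_top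
          exact hinj h2
        rw [← h4]
        exact encard_le_encard hsub
      exact absurd (hb' x) (not_lt.2 h1)
    · exact ⟨x, fun h => absurd h hx⟩
  choose g hg using hg
  -- fibres of `g`
  have hfib : ∀ u, ({x | x ∈ A ∧ g x = u} : Set V).encard < k := by
    intro u
    refine lt_of_le_of_lt (encard_le_encard ?_) (hb' u)
    rintro x ⟨hx, rfl⟩
    exact ⟨(hg x hx).2.2, (hg x hx).2.1.symm⟩
  obtain ⟨s, hs1, hs2⟩ := exists_label g k hfib
  -- parity
  have hwf : WellFounded r := hr.wf
  obtain ⟨p, hp⟩ : ∃ p : V → Bool, ∀ x ∈ A, p (g x) ≠ p x := by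
    let p : V → Bool := hwf.fix (fun x ih =>
      if h : r (g x) x then !(ih (g x) h) else false)
    refine ⟨p, fun x hx => ?_⟩
    have hrx : r (g x) x := (hg x hx).1.1
    have : p x = !(p (g x)) := by
      show hwf.fix _ x = _
      rw [hwf.fix_eq]
      simp only [hrx, dif_pos]
      rfl
    rw [this]
    cases p (g x) <;> simp
  let c : V → ℕ := fun x => 2 * s x + (p x).toNat
  have hc : ∀ x ∈ A, c x < 2 * k := by
    intro x hx
    have h1 := hs1 x hx
    have h2 : (p x).toNat ≤ 1 := Bool.toNat_le (p x)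
    show 2 * s x + (p x).toNat < 2 * k
    omega
  have hceq : ∀ x y, c x = c y → s x = s y ∧ p x = p y := by
    intro x y h
    have h1 : 2 * s x + (p x).toNat = 2 * s y + (p y).toNat := h
    have h2 : (p x).toNat ≤ 1 := Bool.toNat_le (p x)
    have h3 : (p y).toNat ≤ 1 := Bool.toNat_le (p y)
    refine ⟨by omega, ?_⟩
    have h4 : (p x).toNat = (p y).toNat := by omega
    cases hpx : p x <;> cases hpy : p y <;> simp_all
  let H : ℕ → SimpleGraph V := fun j => G.deleteEdges {e | ∃ x ∈ A, j ≤ c x ∧ e = s(x, g x)}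
  have hHG : ∀ j, H j ≤ G := fun j => SimpleGraph.deleteEdges_le _
  have hH : ∀ j, ColLE (H j) k := by
    intro j
    induction j with
    | zero =>
      apply hyp _ (hHG 0)
      refine colLE_delete hb g (fun x hx => (hg x hx).1) (H 0) (hHG 0) ?_
      intro x hx h
      rw [SimpleGraph.deleteEdges_adj] at h
      exact h.2 ⟨x, hx, Nat.zero_le _, rfl⟩
    | succ j ih =>
      apply hyp _ (hHG _)
      refine colLE_add_matching (fun x y => ∃ z ∈ A, c z = j ∧ s(x, y) = s(z, g z)) ?_ ?_ ih
      · rintro x y y' ⟨z, hz, hcz, h⟩ ⟨z', hz', hcz', h'⟩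
        obtain ⟨hs, hpp⟩ := hceq z z' (hcz.trans hcz'.symm)
        rw [Sym2.eq_iff] at h h'
        rcases h with ⟨h1, h2⟩ | ⟨h1, h2⟩ <;> rcases h' with ⟨h3, h4⟩ | ⟨h3, h4⟩
        · rw [h2, h4, ← h1, ← h3]
        · exfalso
          -- `x = z`, `x = g z'`
          apply hp z' hz'
          rw [← h3, h1, hpp]
        · exfalso
          apply hp z hz
          rw [← h1, h3, hpp]
        · have : z = z' := hs2 z hz z' hz' (h1.symm.trans h3) hs
          rw [h2, h4, this]
      · intro x y hxy
        by_cases hcase : ∃ z ∈ A, c z = j ∧ s(x, y) = s(z, g z)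
        · exact Or.inr hcase
        · left
          rw [SimpleGraph.deleteEdges_adj] at hxy ⊢
          refine ⟨hxy.1, ?_⟩
          rintro ⟨z, hz, hjz, he⟩
          rcases Nat.eq_or_lt_of_le hjz with h | h
          · exact hcase ⟨z, hz, h.symm, he⟩
          · exact hxy.2 ⟨z, hz, h, he⟩
  have hfinal : H (2 * k) = G := by
    apply le_antisymm (hHG _)
    intro x y hxy
    rw [SimpleGraph.deleteEdges_adj]
    refine ⟨hxy, ?_⟩
    rintro ⟨z, hz, hjz, -⟩
    exact absurd (hc z hz) (not_lt.2 hjz)
  rw [← hfinal]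
  exact hH _

theorem colLE_mono {G : SimpleGraph V} {j k : ℕ} (h : j ≤ k) (hG : ColLE G j) : ColLE G k := by
  obtain ⟨r, hr, hb⟩ := hG
  exact ⟨r, hr, fun x => lt_of_lt_of_le (hb x) (by exact_mod_cast h)⟩

theorem colLE_of_le {G H : SimpleGraph V} {k : ℕ} (h : H ≤ G) (hG : ColLE G k) : ColLE H k := by
  obtain ⟨r, hr, hb⟩ := hG
  exact ⟨r, hr, fun x => lt_of_le_of_lt (encard_le_encard (back_mono h x)) (hb x)⟩

/-- **Spanning form of the theorem.** -/
theorem exists_spanning {G : SimpleGraph V} {k : ℕ} (h1 : ColLE G (k + 2)) (h2 : ¬ ColLE G (k + 1)) :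
    ∃ H ≤ G, ColLE H (k + 1) ∧ ¬ ColLE H k := by
  by_contra hcon
  push Not at hcon
  exact h2 (colLE_mono (Nat.le_succ k) (key hcon h1))

end Q124.ColNum
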